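import Mathlib.Data.Real.Basic
import Mathlib.Tactic

set_option autoImplicit false

/-!
# Algebraic inequalities for average-distance costs
-/

namespace Pool.Agent.Q292.Sorted

/-- `x (a - x) / (a - 1)` -/
noncomputable def gg (x a : ℝ) : ℝ := x * (a - x) / (a - 1)

lemma gg_zero (a : ℝ) : gg 0 a = 0 := by simp [gg]

lemma gg_self (a : ℝ) : gg a a = 0 := by simp [gg]

lemma gg_symm (x a : ℝ) : gg (a - x) a = gg x a := by
  unfold gg
  ring

lemma gg_one {a : ℝ} (h : a ≠ 1) : gg 1 a = 1 := by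
  unfold gg
  rw [one_mul]
  exact div_self (sub_ne_zero.mpr h)

/-- the basic inequality at the turning point -/
lemma L1 {a b X y : ℝ} (ha : 1 < a) (hb : 1 < b) (hX0 : 0 ≤ X) (hX : X ≤ a) (hy0 : 0 ≤ y)
    (hy : y ≤ b) (hl : 0 ≤ X / a - y / b) :
    (1 - (X / a - y / b)) * gg (X + y) (a + b) ≤ gg X a + gg y b := by
  have ha0 : 0 < a := by linarith
  have hb0 : 0 < b := by linarith
  have hA : 0 < a - 1 := by linarith
  have hB : 0 < b - 1 := by linarith
  have hN : 0 < a + b - 1 := by linarith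
  have hn : 0 < a + b := by linarith
  have h1 : (a + b) / (a + b - 1) * (X * (a - X) / a) ≤ gg X a := by
    unfold gg
    rw [div_mul_div_comm, div_le_div_iff₀ (by positivity) hA]
    have hp : 0 ≤ X * (a - X) := mul_nonneg hX0 (by linarith)
    nlinarith [mul_nonneg hp hb0.le]
  have h2 : (a + b) / (a + b - 1) * (y * (b - y) / b) ≤ gg y b := by
    unfold gg
    rw [div_mul_div_comm, div_le_div_iff₀ (by positivity) hB]
    have hp : 0 ≤ y * (b - y) := mul_nonneg hy0 (by linarith)
    nlinarith [mul_nonneg hp ha0.le]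
  set l := X / a - y / b with hldef
  have hl2 : a * b * l = b * X - a * y := by
    rw [hldef]
    field_simp
  have hid : X * (a - X) / a + y * (b - y) / b =
      (X + y) * (a + b - (X + y)) / (a + b) - a * b / (a + b) * l ^ 2 := by
    rw [hldef]
    field_simp
    ring
  have hkey : a * b * l ≤ (X + y) * (a + b - (X + y)) := by
    rw [hl2]
    have e1 : 0 ≤ (a - X) * y := mul_nonneg (by linarith) hy0
    have e2 : 0 ≤ X * (a - X) := mul_nonneg hX0 (by linarith)
    have e3 : 0 ≤ y * (b - y) := mul_nonneg hy0 (by linarith)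
    nlinarith
  have h3 : (1 - l) * ((X + y) * (a + b - (X + y)) / (a + b)) ≤
      X * (a - X) / a + y * (b - y) / b := by
    rw [hid]
    have : a * b / (a + b) * l ^ 2 ≤ l * ((X + y) * (a + b - (X + y)) / (a + b)) := by
      have e : a * b / (a + b) * l ^ 2 = l * (a * b * l / (a + b)) := by ring
      rw [e]
      gcongr
    linarith
  have h4 : (1 - l) * gg (X + y) (a + b) = (a + b) / (a + b - 1) *
      ((1 - l) * ((X + y) * (a + b - (X + y)) / (a + b))) := by
    unfold gg
    field_simp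
  rw [h4]
  calc (a + b) / (a + b - 1) * ((1 - l) * ((X + y) * (a + b - (X + y)) / (a + b)))
      ≤ (a + b) / (a + b - 1) * (X * (a - X) / a + y * (b - y) / b) := by
        apply mul_le_mul_of_nonneg_left h3
        positivity
    _ ≤ gg X a + gg y b := by
        rw [mul_add]
        linarith

lemma gg_form {t m : ℝ} (hm : m ≠ 1) : gg t m = t - t * (t - 1) * (m - 1)⁻¹ := by
  unfold gg
  have : m - 1 ≠ 0 := sub_ne_zero.mpr hm
  field_simp
  ring

/-- The grand coalition is at least as expensive. -/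
lemma gg_mono {t s n : ℝ} (hs : 1 < s) (hn : s ≤ n) (ht : 0 ≤ t * (t - 1)) : gg t s ≤ gg t n := by
  rw [gg_form hs.ne', gg_form (by linarith : n ≠ 1)]
  have : (n - 1)⁻¹ ≤ (s - 1)⁻¹ := inv_anti₀ (by linarith) (by linarith)
  have := mul_le_mul_of_nonneg_left this ht
  linarith

lemma A1gen {a b x X y : ℝ} (ha : 1 < a) (hb : 1 < b) (hx0 : 0 ≤ x) (hxX : x ≤ X) (hX : X ≤ a)
    (hy : y = 0 ∨ 1 ≤ y) (hyb : y ≤ b) (ht : 1 ≤ x + y) (hs : 1 < X + y) (hsn : X + y ≤ a + b)
    (hd : a * y ≤ b * x) :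
    gg (x + y) (a + b) - gg x a - gg y b ≤
      (X / a - y / b) * (gg (x + y) (a + b) - gg (x + y) (X + y)) := by
  have ha0 : 0 < a := by linarith
  have hb0 : 0 < b := by linarith
  have hA : 0 < a - 1 := by linarith
  have hB : 0 < b - 1 := by linarith
  have hN : 0 < a + b - 1 := by linarith
  have hS : 0 < X + y - 1 := by linarith
  have hy0 : 0 ≤ y := by rcases hy with h | h <;> linarith
  have hX0 : 0 ≤ X := by linarith
  set l := X / a - y / b with hldef
  have hl : 0 ≤ l := by
    rw [hldef, sub_nonneg, div_le_div_iff₀ hb0 ha0]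
    nlinarith
  set x0 := a * y / b with hx0def
  have hx0x : x0 ≤ x := by
    rw [hx0def, div_le_iff₀ hb0]
    linarith
  have hx00 : 0 ≤ x0 := by positivity
  have hx0a : x0 ≤ a := by linarith
  have hP1 : (1 - l) * gg (X + y) (a + b) ≤ gg X a + gg y b := L1 ha hb hX0 hX hy0 hyb hl
  have hz : x0 / a - y / b = 0 := by
    rw [hx0def]
    field_simp
    ring
  have hP0 : gg (x0 + y) (a + b) ≤ gg x0 a + gg y b := by
    have := L1 ha hb hx00 hx0a hy0 hyb (le_of_eq hz.symm)
    rw [hz, sub_zero, one_mul] at this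
    exact this
  have ht0 : 0 ≤ (x0 + y) * (x0 + y - 1) := by
    rcases hy with h | h
    · have : x0 = 0 := by rw [hx0def, h]; simp
      rw [this, h]
      norm_num
    · exact mul_nonneg (by linarith) (by linarith)
  have hP0' : gg (x0 + y) (X + y) ≤ gg (x0 + y) (a + b) := gg_mono hs hsn ht0
  -- the quadratic function
  set F : ℝ → ℝ := fun z => gg z a + gg y b - gg (z + y) (a + b) +
    l * (gg (z + y) (a + b) - gg (z + y) (X + y)) with hF
  have hFX : 0 ≤ F X := by
    simp only [hF, gg_self]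
    linarith
  have hF0 : 0 ≤ F x0 := by
    simp only [hF]
    have := mul_nonneg hl (sub_nonneg.mpr hP0')
    linarith
  have hgoal : 0 ≤ F x → gg (x + y) (a + b) - gg x a - gg y b ≤
      l * (gg (x + y) (a + b) - gg (x + y) (X + y)) := by
    intro h
    simp only [hF] at h
    linarith
  apply hgoal
  set q := -(a - 1)⁻¹ + (a + b - 1)⁻¹ - l * (a + b - 1)⁻¹ + l * (X + y - 1)⁻¹ with hq
  have hform : ∀ z, F z = z - z * (z - 1) * (a - 1)⁻¹ + gg y b -
      (z + y - (z + y) * (z + y - 1) * (a + b - 1)⁻¹) +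
      l * ((z + y) * (z + y - 1) * (X + y - 1)⁻¹ - (z + y) * (z + y - 1) * (a + b - 1)⁻¹) := by
    intro z
    simp only [hF]
    rw [gg_form (t := z) ha.ne', gg_form (t := z + y) (by linarith : a + b ≠ 1),
      gg_form (t := z + y) hs.ne']
    ring
  by_cases hq0 : q ≤ 0
  · have hident : F x * (X - x0) = (X - x) * F x0 + (x - x0) * F X -
        q * ((x - x0) * (X - x) * (X - x0)) := by
      rw [hform x, hform x0, hform X, hq]
      ring
    have hnn : 0 ≤ F x * (X - x0) := by
      rw [hident]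
      have e1 := mul_nonneg (sub_nonneg.mpr hxX) hF0
      have e2 := mul_nonneg (sub_nonneg.mpr hx0x) hFX
      have e3 : 0 ≤ (x - x0) * (X - x) * (X - x0) :=
        mul_nonneg (mul_nonneg (sub_nonneg.mpr hx0x) (sub_nonneg.mpr hxX)) (by linarith)
      have e4 : q * ((x - x0) * (X - x) * (X - x0)) ≤ 0 :=
        mul_nonpos_of_nonpos_of_nonneg hq0 e3
      linarith
    rcases eq_or_lt_of_le (hx0x.trans hxX) with h | h
    · have : x = X := by linarith
      rw [this]
      exact hFX
    · by_contra hneg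
      push Not at hneg
      have : F x * (X - x0) < 0 := mul_neg_of_neg_of_pos hneg (by linarith)
      linarith
  · push Not at hq0
    rw [hform x]
    have hgy : gg y b = y - y * (y - 1) * (b - 1)⁻¹ := gg_form hb.ne'
    have ht1 : 0 ≤ (x + y) * (x + y - 1) := mul_nonneg (by linarith) (by linarith)
    have e1 : (x + y) * (x + y - 1) * (a - 1)⁻¹ ≤ (x + y) * (x + y - 1) *
        ((a + b - 1)⁻¹ - l * (a + b - 1)⁻¹ + l * (X + y - 1)⁻¹) := by
      apply mul_le_mul_of_nonneg_left _ ht1
      linarith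
    have e2 : x * (x - 1) * (a - 1)⁻¹ + y * (y - 1) * (b - 1)⁻¹ ≤
        (x + y) * (x + y - 1) * (a - 1)⁻¹ := by
      rcases hy with h | h
      · rw [h]; simp
      · have e3 : (y - 1) * (b - 1)⁻¹ ≤ y / b := by
          rw [← div_eq_mul_inv, div_le_div_iff₀ hB hb0]
          nlinarith
        have e4 : y / b ≤ x / a := by
          rw [div_le_div_iff₀ hb0 ha0]
          linarith
        have e5 : x / a ≤ x * (a - 1)⁻¹ := by
          rw [div_eq_mul_inv]
          apply mul_le_mul_of_nonneg_left _ hx0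
          exact inv_anti₀ hA (by linarith)
        have e6 : 0 ≤ (x + y - 1) * (a - 1)⁻¹ := mul_nonneg (by linarith) (by positivity)
        have e7 : (y - 1) * (b - 1)⁻¹ ≤ (2 * x + y - 1) * (a - 1)⁻¹ := by
          have : (2 * x + y - 1) * (a - 1)⁻¹ = x * (a - 1)⁻¹ + (x + y - 1) * (a - 1)⁻¹ := by ring
          linarith
        have e8 := mul_le_mul_of_nonneg_left e7 hy0
        have e9 : (x + y) * (x + y - 1) * (a - 1)⁻¹ =
            x * (x - 1) * (a - 1)⁻¹ + y * ((2 * x + y - 1) * (a - 1)⁻¹) := by ring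
        have e10 : y * (y - 1) * (b - 1)⁻¹ = y * ((y - 1) * (b - 1)⁻¹) := by ring
        rw [e9, e10]
        linarith
    rw [hgy]
    have e11 : x - x * (x - 1) * (a - 1)⁻¹ + (y - y * (y - 1) * (b - 1)⁻¹) -
        (x + y - (x + y) * (x + y - 1) * (a + b - 1)⁻¹) +
        l * ((x + y) * (x + y - 1) * (X + y - 1)⁻¹ - (x + y) * (x + y - 1) * (a + b - 1)⁻¹) =
        (x + y) * (x + y - 1) * ((a + b - 1)⁻¹ - l * (a + b - 1)⁻¹ + l * (X + y - 1)⁻¹) -
        (x * (x - 1) * (a - 1)⁻¹ + y * (y - 1) * (b - 1)⁻¹) := by ring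
    rw [e11]
    linarith

end Pool.Agent.Q292.Sorted
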