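import Pool.Agent.Q292.Sorted.Alg

set_option autoImplicit false

/-!
# Algebraic inequalities for average-distance costs, natural numbers
-/

namespace Pool.Agent.Q292.Sorted

lemma A1 (a b x X y : ℕ) (ha : 1 ≤ a) (hb : 1 ≤ b) (hxX : x ≤ X) (hX : X ≤ a) (hy : y ≤ b)
    (ht : 1 ≤ x + y) (hs : X + y < a + b) (hd : a * y ≤ b * x) :
    gg ((x : ℝ) + y) (a + b) - gg x a - gg y b ≤
      ((X : ℝ) / a - y / b) * (gg ((x : ℝ) + y) (a + b) - gg ((x : ℝ) + y) (X + y)) := by
  rcases Nat.lt_or_ge 1 a with ha2 | ha1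
  swap
  · -- `a = 1`
    have ha' : a = 1 := by omega
    subst ha'
    have hx : x = 1 := by
      by_contra h
      have : x = 0 := by omega
      subst this
      omega
    subst hx
    have hX' : X = 1 := by omega
    subst hX'
    have hyb : y + 1 ≤ b := by omega
    have hyb' : (y : ℝ) + 1 ≤ b := by exact_mod_cast hyb
    have hy0 : (0 : ℝ) ≤ y := by positivity
    push_cast
    rw [gg_self, gg_self, div_one]
    rcases Nat.lt_or_ge 1 b with hb2 | hb1
    · have hb' : (2 : ℝ) ≤ b := by exact_mod_cast hb2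
      have key : (y : ℝ) / b * gg (1 + y) (1 + b) ≤ gg y b := by
        unfold gg
        have e : (1 : ℝ) + b - 1 = b := by ring
        rw [e, div_mul_div_comm, div_le_div_iff₀ (by positivity) (by linarith)]
        have h1 : 0 ≤ (y : ℝ) * (b - y) := mul_nonneg hy0 (by linarith)
        have h2 : (1 + (y : ℝ)) * (b - 1) ≤ b * b := by nlinarith
        have h3 := mul_le_mul_of_nonneg_left h2 h1
        nlinarith
      nlinarith
    · have : b = 1 := by omega
      subst this
      have : y = 0 := by omega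
      subst this
      push_cast
      rw [gg_zero]
      norm_num
  · rcases Nat.lt_or_ge 1 b with hb2 | hb1
    swap
    · -- `b = 1`
      have hb' : b = 1 := by omega
      subst hb'
      have hy' : y = 0 := by
        by_contra h
        have : y = 1 := by omega
        subst this
        omega
      subst hy'
      have ha' : (2 : ℝ) ≤ a := by exact_mod_cast ha2
      have hx1 : 1 ≤ x := by omega
      have hx1' : (1 : ℝ) ≤ x := by exact_mod_cast hx1
      push_cast
      rw [gg_zero, zero_div, sub_zero, sub_zero, add_zero, add_zero]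
      rcases Nat.lt_or_ge 1 X with hX2 | hX1
      · have hX2' : (2 : ℝ) ≤ X := by exact_mod_cast hX2
        have hXa : (X : ℝ) ≤ a := by exact_mod_cast hX
        rw [gg_form (by linarith : (a : ℝ) + 1 ≠ 1), gg_form (by linarith : (a : ℝ) ≠ 1),
          gg_form (by linarith : (X : ℝ) ≠ 1)]
        have e : (a : ℝ) + 1 - 1 = a := by ring
        rw [e]
        have hxx : 0 ≤ (x : ℝ) * (x - 1) := mul_nonneg (by linarith) (by linarith)
        have key : ((a : ℝ) - 1)⁻¹ - (a : ℝ)⁻¹ ≤ X / a * (((X : ℝ) - 1)⁻¹ - (a : ℝ)⁻¹) := by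
          have hA : (0 : ℝ) < a - 1 := by linarith
          have hXX : (0 : ℝ) < X - 1 := by linarith
          have ha0 : (0 : ℝ) < a := by linarith
          have e1 : ((a : ℝ) - 1)⁻¹ - (a : ℝ)⁻¹ = 1 / (a * (a - 1)) := by
            field_simp
            ring
          have e2 : (X : ℝ) / a * (((X : ℝ) - 1)⁻¹ - (a : ℝ)⁻¹) =
              X * (a - X + 1) / (a * a * (X - 1)) := by
            field_simp
            ring
          rw [e1, e2, div_le_div_iff₀ (by positivity) (by positivity)]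
          have h1 : (X - 1 : ℝ) * a ≤ X * (a - 1) := by nlinarith
          have h2 : (1 : ℝ) ≤ a - X + 1 := by linarith
          have h3 : (X : ℝ) * (a - 1) ≤ X * (a - X + 1) * (a - 1) := by
            have : 0 ≤ (X : ℝ) * (a - 1) := by positivity
            nlinarith
          have h4 : a * ((X - 1 : ℝ) * a) ≤ a * (X * (a - X + 1) * (a - 1)) :=
            mul_le_mul_of_nonneg_left (h1.trans h3) ha0.le
          nlinarith
        have := mul_le_mul_of_nonneg_left key hxx
        nlinarith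
      · have : X = 1 := by omega
        subst this
        have : x = 1 := by omega
        subst this
        push_cast
        rw [gg_one (by linarith : (a : ℝ) + 1 ≠ 1), gg_one (by linarith : (a : ℝ) ≠ 1), gg_self]
        have : 0 ≤ (1 : ℝ) / a := by positivity
        linarith
    · have ha' : (2 : ℝ) ≤ a := by exact_mod_cast ha2
      have hb' : (2 : ℝ) ≤ b := by exact_mod_cast hb2
      rcases Nat.lt_or_ge 1 (X + y) with hs2 | hs1
      · refine A1gen (by linarith) (by linarith) (by positivity) (by exact_mod_cast hxX)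
          (by exact_mod_cast hX) ?_ (by exact_mod_cast hy) (by exact_mod_cast ht)
          (by exact_mod_cast hs2) (by exact_mod_cast hs.le) (by exact_mod_cast hd)
        rcases Nat.eq_zero_or_pos y with h | h
        · left; exact_mod_cast h
        · right; exact_mod_cast h
      · have hy' : y = 0 := by
          by_contra h
          have h1 : y = 1 := by omega
          have h2 : x = 0 := by omega
          subst h1 h2
          omega
        subst hy'
        have : X = 1 := by omega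
        subst this
        have : x = 1 := by omega
        subst this
        push_cast
        rw [gg_zero, add_zero, gg_one (by linarith : (a : ℝ) + b ≠ 1),
          gg_one (by linarith : (a : ℝ) ≠ 1), gg_self]
        have : 0 ≤ (1 : ℝ) / a := by positivity
        simp only [zero_div, sub_zero]
        linarith

/-- The mirror image of `A1`. -/
lemma A2 (a b x Y y : ℕ) (ha : 1 ≤ a) (hb : 1 ≤ b) (hYy : Y ≤ y) (hx : x ≤ a) (hy : y ≤ b)
    (ht : x + y < a + b) (hs : 1 ≤ x + Y) (hd : a * y ≤ b * x) :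
    gg ((x : ℝ) + y) (a + b) - gg x a - gg y b ≤
      ((x : ℝ) / a - Y / b) * (gg ((x : ℝ) + y) (a + b) -
        gg ((x : ℝ) + y - (x + Y)) (a + b - (x + Y))) := by
  have hyb : b - y ≤ b - Y := by omega
  have h := A1 b a (b - y) (b - Y) (a - x) hb ha hyb (by omega) (by omega) (by omega) (by omega) (by
    zify [hy, hx]
    have : (a : ℤ) * y ≤ b * x := by exact_mod_cast hd
    nlinarith)
  rw [Nat.cast_sub hy, Nat.cast_sub (hYy.trans hy), Nat.cast_sub hx] at h
  have ha0 : (a : ℝ) ≠ 0 := by positivity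
  have hb0 : (b : ℝ) ≠ 0 := by positivity
  have e1 : ((b : ℝ) - Y) / b - (a - x) / a = x / a - Y / b := by
    field_simp
    ring
  have e2 : (b : ℝ) - y + (a - x) = (b + a) - (x + y) := by ring
  have e3 : gg ((b : ℝ) - y + (a - x)) (b + a) = gg ((x : ℝ) + y) (a + b) := by
    rw [e2, gg_symm, add_comm (b : ℝ) a]
  have e4 : gg ((b : ℝ) - y + (a - x)) (b - Y + (a - x)) =
      gg ((x : ℝ) + y - (x + Y)) (a + b - (x + Y)) := by
    have : (b : ℝ) - y + (a - x) = (b - Y + (a - x)) - (x + y - (x + Y)) := by ring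
    rw [this, gg_symm]
    congr 1
    ring
  rw [e1, e3, e4, gg_symm, gg_symm] at h
  linarith

lemma U (a b p : ℕ) (ha : 2 ≤ a) (hb : 2 ≤ b) (h : b * p ≤ a) :
    gg ((p : ℝ) + 1) (a + b) ≤ gg p a + 1 := by
  have ha' : (2 : ℝ) ≤ a := by exact_mod_cast ha
  have hb' : (2 : ℝ) ≤ b := by exact_mod_cast hb
  have h' : (b : ℝ) * p ≤ a := by exact_mod_cast h
  rcases Nat.eq_zero_or_pos p with hp | hp
  · subst hp
    push_cast
    rw [zero_add, gg_zero, gg_one (by linarith : (a : ℝ) + b ≠ 1)]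
    norm_num
  · have hp' : (1 : ℝ) ≤ p := by exact_mod_cast hp
    rw [gg_form (by linarith : (a : ℝ) + b ≠ 1), gg_form (by linarith : (a : ℝ) ≠ 1)]
    have hA : (0 : ℝ) < a - 1 := by linarith
    have hN : (0 : ℝ) < a + b - 1 := by linarith
    have key : (p : ℝ) * (p - 1) * ((a : ℝ) - 1)⁻¹ ≤ (p + 1) * (p + 1 - 1) * ((a : ℝ) + b - 1)⁻¹ := by
      rw [← div_eq_mul_inv, ← div_eq_mul_inv, div_le_div_iff₀ hA hN]
      have h1 : ((p : ℝ) - 1) * (a + b - 1) ≤ (p + 1) * (a - 1) := by nlinarith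
      have h2 := mul_le_mul_of_nonneg_left h1 (by linarith : (0 : ℝ) ≤ p)
      nlinarith
    linarith

lemma UIS1 (a b x X y : ℕ) (ha : 2 ≤ a) (hb : 2 ≤ b) (hxX : x ≤ X) (hX : X ≤ a) (hy : y ≤ b)
    (ht : 1 ≤ x + y) (hs : X + y = 1 ∨ X + y + 1 = a + b) (hd : a * y ≤ b * x) :
    gg ((x : ℝ) + y) (a + b) - gg x a - gg y b ≤ 0 := by
  have ha' : (2 : ℝ) ≤ a := by exact_mod_cast ha
  have hb' : (2 : ℝ) ≤ b := by exact_mod_cast hb
  rcases hs with hs | hs
  · have hy' : y = 0 := by
      by_contra h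
      have h1 : y = 1 := by omega
      have h2 : x = 0 := by omega
      subst h1 h2
      omega
    subst hy'
    have : x = 1 := by omega
    subst this
    push_cast
    rw [gg_zero, add_zero, gg_one (by linarith : (a : ℝ) + b ≠ 1),
      gg_one (by linarith : (a : ℝ) ≠ 1)]
    norm_num
  · have hyb : y + 1 = b := by
      by_contra h
      have h1 : y = b := by omega
      have h2 : X + 1 = a := by omega
      subst h1
      have h3 : a ≤ x := by
        have : y * a ≤ y * x := by linarith [mul_comm a y]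
        exact Nat.le_of_mul_le_mul_left this (by omega)
      omega
    have hXa : X = a := by omega
    subst hXa
    obtain ⟨p, hp⟩ : ∃ p, x + p = X := ⟨X - x, by omega⟩
    have hbp : b * p ≤ X := by
      subst hyb
      subst hp
      nlinarith
    have h := U X b p ha hb hbp
    have hyr : (y : ℝ) = b - 1 := by
      have : (y : ℝ) + 1 = b := by exact_mod_cast hyb
      linarith
    have hxr : (x : ℝ) = X - p := by
      have : (x : ℝ) + p = X := by exact_mod_cast hp
      linarith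
    rw [hyr, gg_symm, gg_one (by linarith : (b : ℝ) ≠ 1)]
    have e1 : gg ((x : ℝ) + (b - 1)) (X + b) = gg ((p : ℝ) + 1) (X + b) := by
      have : (x : ℝ) + (b - 1) = (X + b) - (p + 1) := by rw [hxr]; ring
      rw [this, gg_symm]
    have e2 : gg (x : ℝ) X = gg p X := by rw [hxr, gg_symm]
    rw [e1, e2]
    linarith

lemma UIS2 (a b x Y y : ℕ) (ha : 2 ≤ a) (hb : 2 ≤ b) (hYy : Y ≤ y) (hx : x ≤ a) (hy : y ≤ b)
    (ht : x + y < a + b) (hs : x + Y = 1 ∨ x + Y + 1 = a + b) (hd : a * y ≤ b * x) :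
    gg ((x : ℝ) + y) (a + b) - gg x a - gg y b ≤ 0 := by
  have hyb : b - y ≤ b - Y := by omega
  have h := UIS1 b a (b - y) (b - Y) (a - x) hb ha hyb (by omega) (by omega) (by omega)
    (by omega) (by
      zify [hy, hx]
      have : (a : ℤ) * y ≤ b * x := by exact_mod_cast hd
      nlinarith)
  rw [Nat.cast_sub hy, Nat.cast_sub hx] at h
  have e2 : (b : ℝ) - y + (a - x) = (b + a) - (x + y) := by ring
  have e3 : gg ((b : ℝ) - y + (a - x)) (b + a) = gg ((x : ℝ) + y) (a + b) := by
    rw [e2, gg_symm, add_comm (b : ℝ) a]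
  rw [e3, gg_symm, gg_symm] at h
  linarith

/-- Pushing the path away from the diagonal. -/
lemma push (a b x y : ℕ) (ha : 1 ≤ a) (hx : 1 ≤ x) (hxa : x ≤ a) (hy : y + 1 ≤ b)
    (hd : b * x ≤ a * y) :
    gg ((x : ℝ) - 1) a + gg ((y : ℝ) + 1) b ≤ gg x a + gg y b := by
  have ha2 : 2 ≤ a := by
    by_contra h
    have h1 : a = 1 := by omega
    have h2 : x = 1 := by omega
    subst h1 h2
    omega
  have hb2 : 2 ≤ b := by
    by_contra h
    have h1 : b = 1 := by omega
    have h2 : y = 0 := by omega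
    subst h1 h2
    omega
  have ha' : (2 : ℝ) ≤ a := by exact_mod_cast ha2
  have hb' : (2 : ℝ) ≤ b := by exact_mod_cast hb2
  have hd' : (b : ℝ) * x ≤ a * y := by exact_mod_cast hd
  have hxa' : (x : ℝ) ≤ a := by exact_mod_cast hxa
  have hy' : (y : ℝ) + 1 ≤ b := by exact_mod_cast hy
  have hx' : (1 : ℝ) ≤ x := by exact_mod_cast hx
  have hy0 : (0 : ℝ) ≤ y := by positivity
  rw [gg_form (by linarith : (a : ℝ) ≠ 1), gg_form (by linarith : (b : ℝ) ≠ 1),
    gg_form (by linarith : (a : ℝ) ≠ 1), gg_form (by linarith : (b : ℝ) ≠ 1)]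
  have hA : (0 : ℝ) < a - 1 := by linarith
  have hB : (0 : ℝ) < b - 1 := by linarith
  have key : ((x : ℝ) - 1) * ((a : ℝ) - 1)⁻¹ ≤ y * ((b : ℝ) - 1)⁻¹ := by
    rw [← div_eq_mul_inv, ← div_eq_mul_inv, div_le_div_iff₀ hA hB]
    nlinarith
  nlinarith

lemma M1 (t s n : ℕ) (ht : 1 ≤ t) (hts : t ≤ s) (hsn : s ≤ n) : gg (t : ℝ) s ≤ gg t n := by
  rcases Nat.lt_or_ge 1 s with h | h
  · apply gg_mono
    · exact_mod_cast h
    · exact_mod_cast hsn
    · have : (1 : ℝ) ≤ t := by exact_mod_cast ht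
      exact mul_nonneg (by linarith) (by linarith)
  · have h1 : s = 1 := by omega
    have h2 : t = 1 := by omega
    subst h1 h2
    push_cast
    rw [gg_self]
    rcases Nat.lt_or_ge 1 n with h3 | h3
    · rw [gg_one (by have : (1 : ℝ) < n := by exact_mod_cast h3
                     linarith)]
      norm_num
    · have : n = 1 := by omega
      subst this
      push_cast
      rw [gg_self]

lemma C1 (t m : ℕ) (ht : 1 ≤ t) (htm : t + 1 ≤ m) :
    gg (t : ℝ) (m - 1) + gg t (m + 1) ≤ 2 * gg t m := by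
  have ht' : (1 : ℝ) ≤ t := by exact_mod_cast ht
  have htm' : (t : ℝ) + 1 ≤ m := by exact_mod_cast htm
  rcases Nat.lt_or_ge 1 t with h | h
  · have h' : (2 : ℝ) ≤ t := by exact_mod_cast h
    rw [gg_form (by linarith : (m : ℝ) - 1 ≠ 1), gg_form (by linarith : (m : ℝ) + 1 ≠ 1),
      gg_form (by linarith : (m : ℝ) ≠ 1)]
    have h1 : (0 : ℝ) < m - 1 - 1 := by linarith
    have h2 : (0 : ℝ) < m + 1 - 1 := by linarith
    have h3 : (0 : ℝ) < m - 1 := by linarith
    have key : 2 * ((m : ℝ) - 1)⁻¹ ≤ ((m : ℝ) - 1 - 1)⁻¹ + ((m : ℝ) + 1 - 1)⁻¹ := by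
      have e : ((m : ℝ) - 1 - 1)⁻¹ + ((m : ℝ) + 1 - 1)⁻¹ - 2 * ((m : ℝ) - 1)⁻¹ =
          2 / ((m - 1 - 1) * (m + 1 - 1) * (m - 1)) := by
        field_simp
        ring
      have : 0 ≤ 2 / (((m : ℝ) - 1 - 1) * (m + 1 - 1) * (m - 1)) := by positivity
      linarith
    have h4 : 0 ≤ (t : ℝ) * (t - 1) := mul_nonneg (by linarith) (by linarith)
    have := mul_le_mul_of_nonneg_left key h4
    nlinarith
  · have h1 : t = 1 := by omega
    subst h1
    have hm2 : (2 : ℝ) ≤ m := by
      have : 2 ≤ m := by omega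
      exact_mod_cast this
    have e1 : gg 1 ((m : ℝ) + 1) = 1 := gg_one (by intro h; linarith)
    have e2 : gg 1 (m : ℝ) = 1 := gg_one (by intro h; linarith)
    rcases Nat.lt_or_ge 2 m with h2 | h2
    · have h3 : (3 : ℝ) ≤ m := by exact_mod_cast h2
      have e3 : gg 1 ((m : ℝ) - 1) = 1 := gg_one (by intro h; linarith)
      rw [Nat.cast_one, e1, e2, e3]
      norm_num
    · have : m = 2 := by omega
      subst this
      have e3 : gg 1 (((2 : ℕ) : ℝ) - 1) = 0 := by
        have : ((2 : ℕ) : ℝ) - 1 = 1 := by norm_num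
        rw [this, gg_self]
      rw [Nat.cast_one, e1, e2, e3]
      norm_num

lemma C2 (t m : ℕ) (ht : 1 ≤ t) (hm : 3 ≤ m) :
    2 * gg (t : ℝ) (m - 1) + gg t (m + 2) ≤ 3 * gg t m := by
  have hm' : (3 : ℝ) ≤ m := by exact_mod_cast hm
  have ht' : (1 : ℝ) ≤ t := by exact_mod_cast ht
  rw [gg_form (by linarith : (m : ℝ) - 1 ≠ 1), gg_form (by linarith : (m : ℝ) + 2 ≠ 1),
    gg_form (by linarith : (m : ℝ) ≠ 1)]
  have h1 : (0 : ℝ) < m - 1 - 1 := by linarith
  have h2 : (0 : ℝ) < m + 2 - 1 := by linarith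
  have h3 : (0 : ℝ) < m - 1 := by linarith
  have key : 3 * ((m : ℝ) - 1)⁻¹ ≤ 2 * ((m : ℝ) - 1 - 1)⁻¹ + ((m : ℝ) + 2 - 1)⁻¹ := by
    have e : 2 * ((m : ℝ) - 1 - 1)⁻¹ + ((m : ℝ) + 2 - 1)⁻¹ - 3 * ((m : ℝ) - 1)⁻¹ =
        6 / ((m - 1 - 1) * (m + 2 - 1) * (m - 1)) := by
      field_simp
      ring
    have : 0 ≤ 6 / (((m : ℝ) - 1 - 1) * (m + 2 - 1) * (m - 1)) := by positivity
    linarith
  have h4 : 0 ≤ (t : ℝ) * (t - 1) := mul_nonneg (by linarith) (by linarith)
  have := mul_le_mul_of_nonneg_left key h4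
  nlinarith

end Pool.Agent.Q292.Sorted
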