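import Pool.Agent.Q292.Sorted.Path

set_option autoImplicit false

/-!
# The mixture of cuts dominates
-/

namespace Pool.Agent.Q292.Sorted

open Finset

/-- the cost of the cut `s` (first `s` agents against the rest) at the gap `t` -/
noncomputable def cc (n s t : ℕ) : ℝ :=
  if t ≤ s then gg (t : ℝ) s else gg ((n : ℝ) - t) ((n : ℝ) - s)

lemma cc_zero (n t : ℕ) (ht : 1 ≤ t) : cc n 0 t = gg (t : ℝ) n := by
  unfold cc
  rw [if_neg (by omega), Nat.cast_zero, sub_zero, gg_symm]

lemma cc_le (n s t : ℕ) (hs : s < n) (ht : 1 ≤ t) (htn : t < n) :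
    cc n s t ≤ gg (t : ℝ) n := by
  unfold cc
  by_cases hts : t ≤ s
  · rw [if_pos hts]
    exact M1 t s n ht hts hs.le
  · rw [if_neg hts]
    have := M1 (n - t) (n - s) n (by omega) (by omega) (by omega)
    rw [Nat.cast_sub htn.le, Nat.cast_sub hs.le, gg_symm (t : ℝ) n] at this
    exact this

variable {a b : ℕ} {x : ℕ → ℕ}

lemma last_up (h : IsPath a b x) (t : ℕ) (ht : t ≤ a + b) (hx : 1 ≤ x t) :
    ∃ s, 1 ≤ s ∧ s ≤ t ∧ x s = x (s - 1) + 1 ∧ x s = x t := by
  induction t with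
  | zero =>
    have := h.zero
    omega
  | succ t ih =>
    rcases h.step t (by omega) with h1 | h1
    · obtain ⟨s, hs1, hs2, hs3, hs4⟩ := ih (by omega) (by omega)
      exact ⟨s, hs1, by omega, hs3, by omega⟩
    · exact ⟨t + 1, by omega, le_rfl, by simpa using h1, rfl⟩

lemma next_down (h : IsPath a b x) : ∀ (k t : ℕ), t + k = a + b → t < x t + b →
    ∃ s, t ≤ s ∧ s < a + b ∧ x (s + 1) = x s ∧ x s = x t + (s - t) := by
  intro k
  induction k with
  | zero =>
    intro t ht hx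
    have := h.last
    rw [← ht, add_zero] at this
    omega
  | succ k ih =>
    intro t ht hx
    rcases h.step t (by omega) with h1 | h1
    · exact ⟨t, le_rfl, by omega, h1, by omega⟩
    · obtain ⟨s, hs1, hs2, hs3, hs4⟩ := ih (t + 1) (by omega) (by omega)
      exact ⟨s, by omega, hs2, hs3, by omega⟩

lemma dom_pos (h : IsPath a b x) (ha : 1 ≤ a) (hb : 1 ≤ b) (t : ℕ) (ht1 : 1 ≤ t)
    (ht : t < a + b) (hD : a * (t - x t) ≤ b * x t) :
    ∃ s, 1 ≤ s ∧ s < a + b ∧
      gg (t : ℝ) (a + b) - cP a b x t ≤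
        lam a b x s * (gg (t : ℝ) (a + b) - cc (a + b) s t) ∧
      (2 ≤ a → 2 ≤ b → (s = 1 ∨ s + 1 = a + b) → gg (t : ℝ) (a + b) - cP a b x t ≤ 0) := by
  have hxt := h.le_self ht.le
  have hxa := h.le_a ht.le
  have hxb := h.le_b ht.le
  have hcast : ((x t : ℝ)) + ((t - x t : ℕ) : ℝ) = t := by
    rw [Nat.cast_sub hxt]; ring
  have h1 := h.step (t - 1) (by omega)
  rw [Nat.sub_add_cancel ht1] at h1
  rcases h1 with h1 | h1
  · -- the last step goes down
    have hx1 : 1 ≤ x t := by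
      by_contra hcon
      have : x t = 0 := by omega
      rw [this] at hD
      simp only [mul_zero, Nat.sub_zero] at hD
      have : 0 < a * t := Nat.mul_pos ha ht1
      omega
    obtain ⟨s, hs1, hs2, hs3, hs4⟩ := last_up h t ht.le hx1
    have hst : s < t := by
      rcases Nat.lt_or_ge s t with h2 | h2
      · exact h2
      · have : s = t := by omega
        subst this
        omega
    have hs5 : x (s + 1) = x s := by
      have e1 := h.mono (i := s) (j := s + 1) (by omega) (by omega)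
      have e2 := h.mono (i := s + 1) (j := t) (by omega) (by omega)
      omega
    have hlam : lam a b x s = (x t : ℝ) / a - ((s : ℝ) - x t) / b := by
      unfold lam
      have e1 : (x (s - 1) : ℝ) = x s - 1 := by rw [hs3]; push_cast; ring
      rw [hs5, e1, hs4]
      ring
    have hxs := h.le_self (t := s) (by omega)
    have hxst : x t ≤ s := by omega
    have hcast2 : ((x t : ℝ)) + ((s - x t : ℕ) : ℝ) = s := by
      rw [Nat.cast_sub hxst]; ring
    refine ⟨s, hs1, by omega, ?_, ?_⟩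
    · have := A2 a b (x t) (s - x t) (t - x t) ha hb (by omega) hxa (by omega) (by omega)
        (by omega) hD
      rw [hcast, hcast2] at this
      rw [hlam]
      unfold cc cP
      rw [if_neg (by omega)]
      rw [Nat.cast_sub hxst, Nat.cast_sub hxt] at this
      have e2 : gg ((t : ℝ) - s) (a + b - s) = gg (((a + b : ℕ) : ℝ) - t) (((a + b : ℕ) : ℝ) - s) := by
        push_cast
        rw [← gg_symm]
        congr 1
        ring
      rw [← e2]
      linarith
    · intro ha2 hb2 hs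
      have := UIS2 a b (x t) (s - x t) (t - x t) ha2 hb2 (by omega) hxa (by omega) (by omega)
        (by omega) hD
      rw [hcast, Nat.cast_sub hxt] at this
      unfold cP
      linarith
  · -- the last step goes up
    have hyb : t < x t + b := by
      by_contra hcon
      have e1 : t - x t = b := by omega
      rw [e1] at hD
      have e2 : a ≤ x t := by
        have : b * a ≤ b * x t := by linarith [mul_comm a b]
        exact Nat.le_of_mul_le_mul_left this (by omega)
      omega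
    obtain ⟨s, hs1, hs2, hs3, hs4⟩ := next_down h (a + b - t) t (by omega) hyb
    have hs5 : x s = x (s - 1) + 1 := by
      rcases Nat.eq_or_lt_of_le hs1 with h2 | h2
      · subst h2
        exact h1
      · have e1 := h.mono (i := t) (j := s - 1) (by omega) (by omega)
        have e2 := h.mono (i := s - 1) (j := s) (by omega) (by omega)
        omega
    have hxsa := h.le_a (t := s) hs2.le
    have hcast2 : ((x s : ℝ)) + ((t - x t : ℕ) : ℝ) = s := by
      have : x s + (t - x t) = s := by omega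
      exact_mod_cast this
    have hlam : lam a b x s = (x s : ℝ) / a - ((t - x t : ℕ) : ℝ) / b := by
      unfold lam
      have e1 : (x (s - 1) : ℝ) = x s - 1 := by rw [hs5]; push_cast; ring
      have e2 : (s : ℝ) - x s = ((t - x t : ℕ) : ℝ) := by linarith
      rw [hs3, e1, e2]
      ring
    refine ⟨s, by omega, hs2, ?_, ?_⟩
    · have := A1 a b (x t) (x s) (t - x t) ha hb (by omega) hxsa (by omega) (by omega)
        (by omega) hD
      rw [hcast, hcast2] at this
      rw [hlam]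
      unfold cc cP
      rw [if_pos hs1]
      have e3 : ((t - x t : ℕ) : ℝ) = (t : ℝ) - x t := by linarith
      rw [← e3]
      linarith
    · intro ha2 hb2 hs
      have := UIS1 a b (x t) (x s) (t - x t) ha2 hb2 (by omega) hxsa (by omega) (by omega)
        (by omega) hD
      rw [hcast] at this
      unfold cP
      have e3 : ((t - x t : ℕ) : ℝ) = (t : ℝ) - x t := by linarith
      rw [← e3]
      linarith

lemma dom (h : IsPath a b x) (ha : 1 ≤ a) (hb : 1 ≤ b) (t : ℕ) (ht1 : 1 ≤ t)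
    (ht : t < a + b) :
    ∃ s, 1 ≤ s ∧ s < a + b ∧
      gg (t : ℝ) (a + b) - cP a b x t ≤
        lam a b x s * (gg (t : ℝ) (a + b) - cc (a + b) s t) ∧
      (2 ≤ a → 2 ≤ b → (s = 1 ∨ s + 1 = a + b) → gg (t : ℝ) (a + b) - cP a b x t ≤ 0) := by
  rcases le_total (a * (t - x t)) (b * x t) with hD | hD
  · exact dom_pos h ha hb t ht1 ht hD
  · have hxt := h.le_self ht.le
    obtain ⟨s, hs1, hs2, hs3, hs4⟩ := dom_pos h.swap hb ha t ht1 (by omega) (by
      have : t - (t - x t) = x t := by omega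
      rw [this]
      exact hD)
    rw [cP_swap h ht.le] at hs3 hs4
    rw [lam_swap h hs1 (by omega)] at hs3
    rw [add_comm (b : ℝ) a] at hs3 hs4
    rw [add_comm b a] at hs2 hs3 hs4
    exact ⟨s, hs1, hs2, hs3, fun h1 h2 h3 => hs4 h2 h1 h3⟩

lemma mix (S : Finset ℕ) (h : IsPath a b x) (ha : 1 ≤ a) (hb : 1 ≤ b)
    (hgood : ∀ t, 1 ≤ t → t < a + b → 0 ≤ lam a b x t)
    (hS : S = Ico 1 (a + b) ∨ (2 ≤ a ∧ 2 ≤ b ∧ S = Ico 2 (a + b - 1)))
    (t : ℕ) (ht1 : 1 ≤ t) (ht : t < a + b) :
    gg (t : ℝ) (a + b) - ∑ s ∈ S, lam a b x s * (gg (t : ℝ) (a + b) - cc (a + b) s t) ≤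
      cP a b x t := by
  have hSsub : ∀ s ∈ S, 1 ≤ s ∧ s < a + b := by
    intro s hs
    rcases hS with h1 | ⟨_, _, h1⟩
    · rw [h1, Finset.mem_Ico] at hs; exact hs
    · rw [h1, Finset.mem_Ico] at hs; omega
  have hnn : ∀ s ∈ S, 0 ≤ lam a b x s * (gg (t : ℝ) (a + b) - cc (a + b) s t) := by
    intro s hs
    obtain ⟨hs1, hs2⟩ := hSsub s hs
    apply mul_nonneg (hgood s hs1 hs2)
    have := cc_le (a + b) s t hs2 ht1 ht
    push_cast at this
    linarith
  obtain ⟨s, hs1, hs2, hs3, hs4⟩ := dom h ha hb t ht1 ht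
  by_cases hsS : s ∈ S
  · have := Finset.single_le_sum hnn hsS
    linarith
  · have h0 := Finset.sum_nonneg hnn
    have hle : gg (t : ℝ) (a + b) - cP a b x t ≤ 0 := by
      rcases hS with h1 | ⟨ha2, hb2, h1⟩
      · exfalso
        apply hsS
        rw [h1, Finset.mem_Ico]
        exact ⟨hs1, hs2⟩
      · apply hs4 ha2 hb2
        rw [h1, Finset.mem_Ico] at hsS
        omega
    linarith

lemma sum_lam_le (S : Finset ℕ) (h : IsPath a b x) (ha : 1 ≤ a) (hb : 1 ≤ b)
    (hgood : ∀ t, 1 ≤ t → t < a + b → 0 ≤ lam a b x t)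
    (hS : S ⊆ Ico 1 (a + b)) : ∑ s ∈ S, lam a b x s ≤ 1 := by
  rw [← sum_lam h ha hb]
  apply Finset.sum_le_sum_of_subset_of_nonneg hS
  intro s hs _
  rw [Finset.mem_Ico] at hs
  exact hgood s hs.1 hs.2

/-- half the social cost of the cut `s` -/
noncomputable def K (n : ℕ) (g : ℕ → ℝ) (s : ℕ) : ℝ := ∑ t ∈ Ico 1 n, g t * cc n s t

/-- The key comparison: a path is at least as expensive as the best allowed cut. -/
lemma compare (S : Finset ℕ) (g : ℕ → ℝ) (hg : ∀ t, 0 ≤ g t) (h : IsPath a b x)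
    (ha : 1 ≤ a) (hb : 1 ≤ b)
    (hS : S = Ico 1 (a + b) ∨ (2 ≤ a ∧ 2 ≤ b ∧ S = Ico 2 (a + b - 1)))
    (m : ℝ) (hm0 : m ≤ K (a + b) g 0) (hm : ∀ s ∈ S, m ≤ K (a + b) g s) :
    m ≤ ∑ t ∈ Ico 1 (a + b), g t * cP a b x t := by
  obtain ⟨x', h', hgood, hc⟩ := exists_good ha hb ((a + b) * (a * b)) x h (Nat.le_add_left _ _)
  have hsub : S ⊆ Ico 1 (a + b) := by
    rcases hS with h1 | ⟨_, _, h1⟩
    · rw [h1]
    · rw [h1]
      apply Finset.Ico_subset_Ico <;> omega
  have hS1 := sum_lam_le S h' ha hb hgood hsub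
  have hnn : ∀ s ∈ S, 0 ≤ lam a b x' s := by
    intro s hs
    have := hsub hs
    rw [Finset.mem_Ico] at this
    exact hgood s this.1 this.2
  have h1 : ∑ t ∈ Ico 1 (a + b), g t * cP a b x' t ≤ ∑ t ∈ Ico 1 (a + b), g t * cP a b x t :=
    Finset.sum_le_sum fun t _ => mul_le_mul_of_nonneg_left (hc t) (hg t)
  refine le_trans ?_ h1
  have h2 : ∑ t ∈ Ico 1 (a + b), g t * (gg (t : ℝ) (a + b) -
      ∑ s ∈ S, lam a b x' s * (gg (t : ℝ) (a + b) - cc (a + b) s t)) ≤
      ∑ t ∈ Ico 1 (a + b), g t * cP a b x' t := by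
    apply Finset.sum_le_sum
    intro t ht
    rw [Finset.mem_Ico] at ht
    exact mul_le_mul_of_nonneg_left (mix S h' ha hb hgood hS t ht.1 ht.2) (hg t)
  refine le_trans ?_ h2
  have hK0 : K (a + b) g 0 = ∑ t ∈ Ico 1 (a + b), g t * gg (t : ℝ) (a + b) := by
    unfold K
    apply Finset.sum_congr rfl
    intro t ht
    rw [Finset.mem_Ico] at ht
    rw [cc_zero _ _ ht.1]
    push_cast
    rfl
  have h3 : ∑ t ∈ Ico 1 (a + b), g t * (gg (t : ℝ) (a + b) -
      ∑ s ∈ S, lam a b x' s * (gg (t : ℝ) (a + b) - cc (a + b) s t)) =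
      K (a + b) g 0 - ∑ s ∈ S, lam a b x' s * (K (a + b) g 0 - K (a + b) g s) := by
    have e1 : ∀ s ∈ S, lam a b x' s * (K (a + b) g 0 - K (a + b) g s) =
        ∑ t ∈ Ico 1 (a + b), g t * (lam a b x' s * (gg (t : ℝ) (a + b) - cc (a + b) s t)) := by
      intro s _
      rw [hK0]
      unfold K
      rw [← Finset.sum_sub_distrib, Finset.mul_sum]
      apply Finset.sum_congr rfl
      intro t _
      ring
    rw [Finset.sum_congr rfl e1, Finset.sum_comm, hK0, ← Finset.sum_sub_distrib]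
    apply Finset.sum_congr rfl
    intro t _
    rw [mul_sub, Finset.mul_sum]
  rw [h3]
  have h4 : ∑ s ∈ S, lam a b x' s * (K (a + b) g 0 - K (a + b) g s) ≤
      ∑ s ∈ S, lam a b x' s * (K (a + b) g 0 - m) := by
    apply Finset.sum_le_sum
    intro s hs
    apply mul_le_mul_of_nonneg_left _ (hnn s hs)
    have := hm s hs
    linarith
  rw [← Finset.sum_mul] at h4
  have h5 : (∑ s ∈ S, lam a b x' s) * (K (a + b) g 0 - m) ≤ 1 * (K (a + b) g 0 - m) :=
    mul_le_mul_of_nonneg_right hS1 (by linarith)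
  linarith

end Pool.Agent.Q292.Sorted
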