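import Pool.Agent.Q292.Sorted.Alg2
import Mathlib.Algebra.BigOperators.Intervals
import Mathlib.Algebra.Order.BigOperators.Group.Finset

set_option autoImplicit false

/-!
# Lattice paths: every structure with at most two coalitions is dominated by a mixture of cuts
-/

namespace Pool.Agent.Q292.Sorted

open Finset

/-- lattice paths: `x t` is the number of members of a coalition of size `a` among the first `t`
agents, the other coalition having size `b` -/
structure IsPath (a b : ℕ) (x : ℕ → ℕ) : Prop where
  zero : x 0 = 0
  last : x (a + b) = a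
  step : ∀ i < a + b, x (i + 1) = x i ∨ x (i + 1) = x i + 1

variable {a b : ℕ} {x : ℕ → ℕ}

lemma IsPath.mono (h : IsPath a b x) {i j : ℕ} (hij : i ≤ j) (hj : j ≤ a + b) :
    x i ≤ x j ∧ x j ≤ x i + (j - i) := by
  induction j, hij using Nat.le_induction with
  | base => simp
  | succ j hij ih =>
    have := ih (by omega)
    rcases h.step j (by omega) with h1 | h1 <;> omega

lemma IsPath.le_self (h : IsPath a b x) {t : ℕ} (ht : t ≤ a + b) : x t ≤ t := by
  have := h.mono (Nat.zero_le t) ht
  have := h.zero
  omega

lemma IsPath.le_a (h : IsPath a b x) {t : ℕ} (ht : t ≤ a + b) : x t ≤ a := by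
  have := h.mono ht le_rfl
  have := h.last
  omega

lemma IsPath.le_b (h : IsPath a b x) {t : ℕ} (ht : t ≤ a + b) : t ≤ x t + b := by
  have := h.mono ht le_rfl
  have := h.last
  omega

lemma IsPath.swap (h : IsPath a b x) : IsPath b a (fun t => t - x t) where
  zero := by simp
  last := by
    have := h.last
    simp only [add_comm b a, this]
    omega
  step := by
    intro i hi
    have h1 := h.le_self (t := i) (by omega)
    have h2 := h.le_self (t := i + 1) (by omega)
    rcases h.step i (by omega) with h3 | h3 <;> omega

/-- the cost of a path at the gap `t` -/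
noncomputable def cP (a b : ℕ) (x : ℕ → ℕ) (t : ℕ) : ℝ := gg (x t) a + gg ((t : ℝ) - x t) b

/-- the weights -/
noncomputable def lam (a b : ℕ) (x : ℕ → ℕ) (t : ℕ) : ℝ :=
  ((x t : ℝ) / a - ((t : ℝ) - x t) / b) * (2 * x t - x (t - 1) - x (t + 1))

lemma cP_swap (h : IsPath a b x) {t : ℕ} (ht : t ≤ a + b) :
    cP b a (fun t => t - x t) t = cP a b x t := by
  unfold cP
  simp only
  rw [Nat.cast_sub (h.le_self ht)]
  have : (t : ℝ) - (t - x t) = x t := by ring
  rw [this]
  ring

lemma lam_swap (h : IsPath a b x) {t : ℕ} (ht1 : 1 ≤ t) (ht : t < a + b) :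
    lam b a (fun t => t - x t) t = lam a b x t := by
  unfold lam
  simp only
  rw [Nat.cast_sub (h.le_self ht.le), Nat.cast_sub (h.le_self (t := t - 1) (by omega)),
    Nat.cast_sub (h.le_self (t := t + 1) (by omega)), Nat.cast_sub ht1]
  push_cast
  ring

/-- partial sums of the weights -/
lemma sum_lam_aux (h : IsPath a b x) (ha : 1 ≤ a) (hb : 1 ≤ b) (m : ℕ) (hm : m < a + b) :
    ∑ t ∈ Ico 1 (m + 1), lam a b x t =
      (x m : ℝ) / a - ((x m : ℝ) / a - ((m : ℝ) - x m) / b) * ((x (m + 1) : ℝ) - x m) := by
  have ha' : (a : ℝ) ≠ 0 := by positivity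
  have hb' : (b : ℝ) ≠ 0 := by positivity
  induction m with
  | zero =>
    simp [h.zero]
  | succ m ih =>
    rw [Finset.sum_Ico_succ_top (by omega), ih (by omega)]
    unfold lam
    rw [Nat.add_sub_cancel]
    rcases h.step m (by omega) with h1 | h1
    · rw [h1]
      push_cast
      ring
    · rw [h1]
      push_cast
      ring

lemma sum_lam (h : IsPath a b x) (ha : 1 ≤ a) (hb : 1 ≤ b) :
    ∑ t ∈ Ico 1 (a + b), lam a b x t = 1 := by
  have ha' : (a : ℝ) ≠ 0 := by positivity
  have hb' : (b : ℝ) ≠ 0 := by positivity
  obtain ⟨m, hm⟩ : ∃ m, a + b = m + 1 := ⟨a + b - 1, by omega⟩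
  have h1 := sum_lam_aux h ha hb m (by omega)
  rw [hm, h1]
  have h2 := h.last
  have h3 := h.step m (by omega)
  rw [hm] at h2
  rw [h2] at h3 ⊢
  have hm' : (m : ℝ) = a + b - 1 := by
    have : (m : ℝ) + 1 = a + b := by exact_mod_cast hm.symm
    linarith
  rcases h3 with h3 | h3
  · rw [← h3]
    field_simp
    ring
  · have : (x m : ℝ) = a - 1 := by
      have : (a : ℝ) = x m + 1 := by exact_mod_cast h3
      linarith
    rw [this, hm']
    field_simp
    ring

/-- the measure -/
def meas (a b : ℕ) (x : ℕ → ℕ) : ℕ :=
  ∑ t ∈ range (a + b), ((b : ℤ) * x t - a * ((t : ℤ) - x t)).natAbs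

lemma meas_le (h : IsPath a b x) : meas a b x ≤ (a + b) * (a * b) := by
  unfold meas
  calc ∑ t ∈ range (a + b), ((b : ℤ) * x t - a * ((t : ℤ) - x t)).natAbs
      ≤ ∑ t ∈ range (a + b), a * b := by
        apply Finset.sum_le_sum
        intro t ht
        rw [Finset.mem_range] at ht
        have h1 := h.le_self ht.le
        have h2 := h.le_a ht.le
        have h3 := h.le_b ht.le
        have e1 : (b : ℤ) * x t ≤ a * b := by
          have : b * x t ≤ b * a := Nat.mul_le_mul_left b h2
          have : (b : ℤ) * x t ≤ b * a := by exact_mod_cast this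
          linarith [mul_comm (a : ℤ) b]
        have e2 : (a : ℤ) * ((t : ℤ) - x t) ≤ a * b := by
          apply mul_le_mul_of_nonneg_left _ (by positivity)
          have : (t : ℤ) ≤ x t + b := by exact_mod_cast h3
          linarith
        have e3 : 0 ≤ (b : ℤ) * x t := by positivity
        have e4 : 0 ≤ (a : ℤ) * ((t : ℤ) - x t) := by
          apply mul_nonneg (by positivity)
          have : (x t : ℤ) ≤ t := by exact_mod_cast h1
          linarith
        have e5 : ((a * b : ℕ) : ℤ) = (a : ℤ) * b := by push_cast; ring
        omega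
    _ = (a + b) * (a * b) := by simp

lemma meas_lt {x' : ℕ → ℕ} {t : ℕ} (ht : t < a + b) (hne : ∀ s, s ≠ t → x' s = x s)
    (hlt : ((b : ℤ) * x t - a * ((t : ℤ) - x t)).natAbs <
      ((b : ℤ) * x' t - a * ((t : ℤ) - x' t)).natAbs) : meas a b x < meas a b x' := by
  unfold meas
  apply Finset.sum_lt_sum
  · intro s _
    by_cases hs : s = t
    · subst hs; exact hlt.le
    · rw [hne s hs]
  · exact ⟨t, Finset.mem_range.mpr ht, hlt⟩

lemma flip_step (h : IsPath a b x) {t : ℕ} (ht1 : 1 ≤ t) (ht : t < a + b)
    (hneg : lam a b x t < 0) (ha : 1 ≤ a) (hb : 1 ≤ b) :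
    ∃ x', IsPath a b x' ∧ meas a b x < meas a b x' ∧
      ∀ s, cP a b x' s ≤ cP a b x s := by
  have ha' : (0 : ℝ) < a := by positivity
  have hb' : (0 : ℝ) < b := by positivity
  have h1 := h.step (t - 1) (by omega)
  rw [Nat.sub_add_cancel ht1] at h1
  have h2 := h.step t ht
  have hxa := h.le_a ht.le
  have hxt := h.le_self ht.le
  have hxb := h.le_b ht.le
  have hxb' : t + 1 ≤ x (t + 1) + b := h.le_b (by omega)
  have hxa' := h.le_a (t := t + 1) (by omega)
  have hth : (x t : ℝ) / a - ((t : ℝ) - x t) / b =
      ((b : ℝ) * x t - a * ((t : ℝ) - x t)) / (a * b) := by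
    field_simp
  have hab : (0 : ℝ) < a * b := by positivity
  unfold lam at hneg
  rw [hth] at hneg
  rcases h1 with h1 | h1 <;> rcases h2 with h2 | h2
  · -- straight
    exfalso
    rw [h2, h1] at hneg
    have : (2 * (x (t - 1) : ℝ) - x (t - 1) - x (t - 1)) = 0 := by ring
    rw [this, mul_zero] at hneg
    exact lt_irrefl _ hneg
  · -- valley
    have e : (2 * (x t : ℝ) - x (t - 1) - x (t + 1)) = -1 := by
      rw [h2, ← h1]; push_cast; ring
    rw [e] at hneg
    have hpos : 0 < (b : ℝ) * x t - a * ((t : ℝ) - x t) := by
      have : 0 < ((b : ℝ) * x t - a * ((t : ℝ) - x t)) / (a * b) := by linarith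
      exact (div_pos_iff_of_pos_right hab).mp this
    have hposZ : 0 < (b : ℤ) * x t - a * ((t : ℤ) - x t) := by exact_mod_cast hpos
    have hy1 : x t + 1 ≤ t := by
      have := h.le_self (t := t - 1) (by omega)
      omega
    refine ⟨Function.update x t (x t + 1), ?_, ?_, ?_⟩
    · constructor
      · rw [Function.update_of_ne (by omega)]; exact h.zero
      · rw [Function.update_of_ne (by omega)]; exact h.last
      · intro i hi
        rcases Nat.lt_trichotomy i t with hit | hit | hit
        · rw [Function.update_of_ne hit.ne]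
          by_cases hi1 : i + 1 = t
          · subst hi1
            rw [Function.update_self]
            have : i + 1 - 1 = i := by omega
            rw [this] at h1
            omega
          · rw [Function.update_of_ne hi1]
            exact h.step i hi
        · subst hit
          rw [Function.update_self, Function.update_of_ne (by omega)]
          omega
        · rw [Function.update_of_ne hit.ne', Function.update_of_ne (by omega)]
          exact h.step i hi
    · apply meas_lt ht (fun s hs => Function.update_of_ne hs _ _)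
      rw [Function.update_self]
      have e2 : (b : ℤ) * ((x t + 1 : ℕ) : ℤ) - a * ((t : ℤ) - ((x t + 1 : ℕ) : ℤ)) =
          ((b : ℤ) * x t - a * ((t : ℤ) - x t)) + (a + b) := by push_cast; ring
      rw [e2]
      have : (0 : ℤ) < (a : ℤ) + b := by positivity
      omega
    · intro s
      by_cases hs : s = t
      · subst hs
        unfold cP
        rw [Function.update_self]
        have hp := push b a (s - x s) (x s) hb (by omega) (by omega) (by omega) (by
          have : (0 : ℤ) < (b : ℤ) * x s - a * ((s : ℤ) - x s) := hposZ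
          zify [hxt]
          linarith)
        rw [Nat.cast_sub hxt] at hp
        push_cast
        have e3 : (s : ℝ) - (x s + 1) = (s : ℝ) - x s - 1 := by ring
        rw [e3]
        linarith
      · unfold cP
        rw [Function.update_of_ne hs]
  · -- peak
    have hx1 : (x (t - 1) : ℝ) = x t - 1 := by rw [h1]; push_cast; ring
    have e : (2 * (x t : ℝ) - x (t - 1) - x (t + 1)) = 1 := by
      rw [h2, hx1]; ring
    rw [e] at hneg
    have hpos : (b : ℝ) * x t - a * ((t : ℝ) - x t) < 0 := by
      have h5 : ((b : ℝ) * x t - a * ((t : ℝ) - x t)) / (a * b) < 0 := by linarith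
      by_contra hcon
      push Not at hcon
      have := div_nonneg hcon hab.le
      linarith
    have hposZ : (b : ℤ) * x t - a * ((t : ℤ) - x t) < 0 := by exact_mod_cast hpos
    refine ⟨Function.update x t (x t - 1), ?_, ?_, ?_⟩
    · constructor
      · rw [Function.update_of_ne (by omega)]; exact h.zero
      · rw [Function.update_of_ne (by omega)]; exact h.last
      · intro i hi
        rcases Nat.lt_trichotomy i t with hit | hit | hit
        · rw [Function.update_of_ne hit.ne]
          by_cases hi1 : i + 1 = t
          · subst hi1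
            rw [Function.update_self]
            have : i + 1 - 1 = i := by omega
            rw [this] at h1
            omega
          · rw [Function.update_of_ne hi1]
            exact h.step i hi
        · subst hit
          rw [Function.update_self, Function.update_of_ne (by omega)]
          omega
        · rw [Function.update_of_ne hit.ne', Function.update_of_ne (by omega)]
          exact h.step i hi
    · apply meas_lt ht (fun s hs => Function.update_of_ne hs _ _)
      rw [Function.update_self]
      have e2 : (b : ℤ) * ((x t - 1 : ℕ) : ℤ) - a * ((t : ℤ) - ((x t - 1 : ℕ) : ℤ)) =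
          ((b : ℤ) * x t - a * ((t : ℤ) - x t)) - (a + b) := by
        rw [Nat.cast_sub (by omega)]
        push_cast
        ring
      rw [e2]
      have : (0 : ℤ) < (a : ℤ) + b := by positivity
      omega
    · intro s
      by_cases hs : s = t
      · subst hs
        unfold cP
        rw [Function.update_self]
        have hp := push a b (x s) (s - x s) ha (by omega) hxa (by omega) (by
          zify [hxt]
          linarith)
        rw [Nat.cast_sub hxt] at hp
        rw [Nat.cast_sub (by omega)]
        push_cast
        have e3 : (s : ℝ) - (x s - 1) = (s : ℝ) - x s + 1 := by ring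
        rw [e3]
        linarith
      · unfold cP
        rw [Function.update_of_ne hs]
  · -- straight
    exfalso
    have hx1 : (x (t - 1) : ℝ) = x t - 1 := by rw [h1]; push_cast; ring
    have e : (2 * (x t : ℝ) - x (t - 1) - x (t + 1)) = 0 := by
      rw [h2, hx1]; push_cast; ring
    rw [e, mul_zero] at hneg
    exact lt_irrefl _ hneg

lemma exists_good (ha : 1 ≤ a) (hb : 1 ≤ b) : ∀ (k : ℕ) (x : ℕ → ℕ), IsPath a b x →
    (a + b) * (a * b) ≤ meas a b x + k →
    ∃ x', IsPath a b x' ∧ (∀ t, 1 ≤ t → t < a + b → 0 ≤ lam a b x' t) ∧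
      ∀ s, cP a b x' s ≤ cP a b x s := by
  intro k
  induction k with
  | zero =>
    intro x h hk
    refine ⟨x, h, ?_, fun s => le_rfl⟩
    intro t ht1 ht
    by_contra hneg
    push Not at hneg
    obtain ⟨x', h', hm, _⟩ := flip_step h ht1 ht hneg ha hb
    have := meas_le h'
    omega
  | succ k ih =>
    intro x h hk
    by_cases hg : ∀ t, 1 ≤ t → t < a + b → 0 ≤ lam a b x t
    · exact ⟨x, h, hg, fun s => le_rfl⟩
    · push Not at hg
      obtain ⟨t, ht1, ht, hneg⟩ := hg
      obtain ⟨x', h', hm, hc⟩ := flip_step h ht1 ht hneg ha hb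
      obtain ⟨x'', h'', hg'', hc''⟩ := ih x' h' (by omega)
      exact ⟨x'', h'', hg'', fun s => (hc'' s).trans (hc s)⟩

end Pool.Agent.Q292.Sorted
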