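import Pool.Agent.Q292.Sorted.Dom

set_option autoImplicit false

/-!
# Some optimal cut does not separate agents with equal values
-/

namespace Pool.Agent.Q292.Sorted

open Finset

lemma cc_of_le {n s t : ℕ} (h : t ≤ s) : cc n s t = gg (t : ℝ) s := by
  unfold cc
  rw [if_pos h]

lemma cc_of_ge {n s t : ℕ} (h : s ≤ t) : cc n s t = gg ((n : ℝ) - t) ((n : ℝ) - s) := by
  unfold cc
  by_cases hts : t ≤ s
  · have : t = s := by omega
    subst this
    rw [if_pos le_rfl, gg_self, gg_self]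
  · rw [if_neg hts]

lemma K_self (n : ℕ) (g : ℕ → ℝ) : K n g n = K n g 0 := by
  unfold K
  apply Finset.sum_congr rfl
  intro t ht
  rw [Finset.mem_Ico] at ht
  rw [cc_of_le ht.2.le, cc_zero n t ht.1]

lemma tie (n s : ℕ) (g : ℕ → ℝ) (hg : ∀ t, 0 ≤ g t) (h1 : 1 ≤ s) (hn : s < n)
    (hgs : g s = 0) : K n g (s - 1) + K n g (s + 1) ≤ 2 * K n g s := by
  unfold K
  rw [← Finset.sum_add_distrib, Finset.mul_sum]
  apply Finset.sum_le_sum
  intro t ht
  rw [Finset.mem_Ico] at ht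
  rcases Nat.lt_trichotomy t s with h | h | h
  · rw [cc_of_le (by omega : t ≤ s - 1), cc_of_le (by omega : t ≤ s + 1), cc_of_le h.le]
    have := C1 t s ht.1 (by omega)
    rw [Nat.cast_sub h1]
    push_cast
    nlinarith [hg t]
  · subst h
    rw [hgs]
    simp
  · rw [cc_of_ge (by omega : s - 1 ≤ t), cc_of_ge (by omega : s + 1 ≤ t), cc_of_ge h.le]
    have := C1 (n - t) (n - s) (by omega) (by omega)
    rw [Nat.cast_sub ht.2.le, Nat.cast_sub hn.le] at this
    rw [Nat.cast_sub h1]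
    push_cast
    have e1 : (n : ℝ) - (s - 1) = n - s + 1 := by ring
    have e2 : (n : ℝ) - (s + 1) = n - s - 1 := by ring
    rw [e1, e2]
    nlinarith [hg t]

lemma tie2 (n : ℕ) (g : ℕ → ℝ) (hg : ∀ t, 0 ≤ g t) (hn : 5 ≤ n) (hg2 : g 2 = 0) :
    K n g 0 + 2 * K n g 3 ≤ 3 * K n g 2 := by
  have hn' : (5 : ℝ) ≤ n := by exact_mod_cast hn
  unfold K
  rw [Finset.mul_sum, ← Finset.sum_add_distrib, Finset.mul_sum]
  apply Finset.sum_le_sum
  intro t ht
  rw [Finset.mem_Ico] at ht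
  rcases Nat.lt_trichotomy t 2 with h | h | h
  · have : t = 1 := by omega
    subst this
    rw [cc_zero _ _ le_rfl, cc_of_le (by omega), cc_of_le (by omega)]
    rw [Nat.cast_one, gg_one (by linarith : (n : ℝ) ≠ 1), gg_one (by norm_num), gg_one (by norm_num)]
    linarith
  · subst h
    rw [hg2]
    simp
  · rw [cc_of_ge (Nat.zero_le t), cc_of_ge (by omega : 3 ≤ t), cc_of_ge h.le]
    have := C2 (n - t) (n - 2) (by omega) (by omega)
    rw [Nat.cast_sub ht.2.le, Nat.cast_sub (by omega : 2 ≤ n)] at this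
    push_cast at this ⊢
    have e1 : (n : ℝ) - 2 - 1 = n - 3 := by ring
    have e2 : (n : ℝ) - 2 + 2 = n - 0 := by ring
    rw [e1, e2] at this
    nlinarith [hg t]

lemma tie3 (n s : ℕ) (g : ℕ → ℝ) (hg : ∀ t, 0 ≤ g t) (hn : n = s + 2) (hs : 3 ≤ s)
    (hgs : g s = 0) : K n g 0 + 2 * K n g (s - 1) ≤ 3 * K n g s := by
  have hs' : (3 : ℝ) ≤ s := by exact_mod_cast hs
  have hn' : (n : ℝ) = s + 2 := by rw [hn]; push_cast; ring
  unfold K
  rw [Finset.mul_sum, ← Finset.sum_add_distrib, Finset.mul_sum]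
  apply Finset.sum_le_sum
  intro t ht
  rw [Finset.mem_Ico] at ht
  rcases Nat.lt_trichotomy t s with h | h | h
  · rw [cc_zero _ _ ht.1, cc_of_le (by omega : t ≤ s - 1), cc_of_le h.le, hn',
      Nat.cast_sub (by omega : 1 ≤ s)]
    have := C2 t s ht.1 hs
    push_cast
    nlinarith [hg t]
  · subst h
    rw [hgs]
    simp
  · have : t = s + 1 := by omega
    subst this
    rw [cc_of_ge (Nat.zero_le _), cc_of_ge (by omega : s - 1 ≤ s + 1), cc_of_ge h.le, hn',
      Nat.cast_sub (by omega : 1 ≤ s)]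
    push_cast
    have e1 : (s : ℝ) + 2 - (s + 1) = 1 := by ring
    have e2 : (s : ℝ) + 2 - 0 = s + 2 := by ring
    have e3 : (s : ℝ) + 2 - (s - 1) = 3 := by ring
    have e4 : (s : ℝ) + 2 - s = 2 := by ring
    rw [e1, e2, e3, e4, gg_one (by linarith : (s : ℝ) + 2 ≠ 1), gg_one (by norm_num),
      gg_one (by norm_num)]
    linarith

lemma tie4 (g : ℕ → ℝ) (hg2 : g 2 = 0) : K 4 g 0 ≤ K 4 g 2 := by
  unfold K
  apply Finset.sum_le_sum
  intro t ht
  rw [Finset.mem_Ico] at ht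
  obtain ⟨h1, h2⟩ := ht
  have : t = 1 ∨ t = 2 ∨ t = 3 := by omega
  rcases this with h | h | h <;> subst h
  · rw [cc_of_ge (by omega), cc_of_le (by omega)]
    push_cast
    have e : (4 : ℝ) - 1 = 4 - 0 - 1 := by norm_num
    rw [gg_one (by norm_num : (2 : ℝ) ≠ 1)]
    have : gg ((4 : ℝ) - 1) (4 - 0) = 1 := by unfold gg; norm_num
    rw [this]
  · rw [hg2]; simp
  · rw [cc_of_ge (by omega), cc_of_ge (by omega)]
    have e1 : gg (((4 : ℕ) : ℝ) - (3 : ℕ)) (((4 : ℕ) : ℝ) - (0 : ℕ)) = 1 := by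
      unfold gg; norm_num
    have e2 : gg (((4 : ℕ) : ℝ) - (3 : ℕ)) (((4 : ℕ) : ℝ) - (2 : ℕ)) = 1 := by
      unfold gg; norm_num
    rw [e1, e2]

lemma exists_least_min (S : Finset ℕ) (hS : S.Nonempty) (f : ℕ → ℝ) :
    ∃ s ∈ S, (∀ s' ∈ S, f s ≤ f s') ∧ ∀ s' ∈ S, s' < s → f s < f s' := by
  obtain ⟨s0, hs0, hmin⟩ := S.exists_min_image f hS
  have hne : (S.filter fun s => f s ≤ f s0).Nonempty := ⟨s0, by simp [hs0]⟩
  obtain ⟨s, hs, hmin'⟩ := (S.filter fun s => f s ≤ f s0).exists_min_image id hne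
  rw [Finset.mem_filter] at hs
  refine ⟨s, hs.1, fun s' hs' => hs.2.trans (hmin s' hs'), ?_⟩
  intro s' hs' hlt
  by_contra hcon
  push Not at hcon
  have := hmin' s' (by
    rw [Finset.mem_filter]
    exact ⟨hs', hcon.trans hs.2⟩)
  simp only [id] at this
  omega

lemma his_cut (n : ℕ) (g : ℕ → ℝ) (hg : ∀ t, 0 ≤ g t) (hn : 1 ≤ n) :
    ∃ s < n, (s = 0 ∨ 0 < g s) ∧ ∀ s' < n, K n g s ≤ K n g s' := by
  obtain ⟨s, hs, hmin, hlt⟩ := exists_least_min (range n) ⟨0, by simp; omega⟩ (K n g)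
  simp only [Finset.mem_range] at hs hmin hlt
  refine ⟨s, hs, ?_, hmin⟩
  rcases Nat.eq_zero_or_pos s with h | h
  · exact Or.inl h
  · right
    rcases (hg s).lt_or_eq with h1 | h1
    · exact h1
    · exfalso
      have h2 := tie n s g hg h hs h1.symm
      have h3 := hlt (s - 1) (by omega) (by omega)
      have h4 : K n g s ≤ K n g (s + 1) := by
        rcases Nat.lt_or_ge (s + 1) n with h5 | h5
        · exact hmin _ h5
        · have : s + 1 = n := by omega
          rw [this, K_self]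
          exact hmin 0 (by omega)
      linarith

lemma uis_cut (n : ℕ) (g : ℕ → ℝ) (hg : ∀ t, 0 ≤ g t) :
    ∃ s, (s = 0 ∨ (2 ≤ s ∧ s + 2 ≤ n)) ∧ (s = 0 ∨ 0 < g s) ∧
      ∀ s', (s' = 0 ∨ (2 ≤ s' ∧ s' + 2 ≤ n)) → K n g s ≤ K n g s' := by
  have hmem : ∀ s, s ∈ insert 0 (Ico 2 (n - 1)) ↔ (s = 0 ∨ (2 ≤ s ∧ s + 2 ≤ n)) := by
    intro s
    rw [Finset.mem_insert, Finset.mem_Ico]
    omega
  obtain ⟨s, hs, hmin, hlt⟩ := exists_least_min (insert 0 (Ico 2 (n - 1))) ⟨0, by simp⟩ (K n g)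
  simp only [hmem] at hs hmin hlt
  refine ⟨s, hs, ?_, hmin⟩
  rcases hs with h | ⟨hs2, hsn⟩
  · exact Or.inl h
  · right
    rcases (hg s).lt_or_eq with h1 | h1
    · exact h1
    · exfalso
      have h0 := hlt 0 (Or.inl rfl) (by omega)
      rcases Nat.lt_or_ge n 5 with hn | hn
      · have e1 : n = 4 := by omega
        have e2 : s = 2 := by omega
        subst e1 e2
        have := tie4 g h1.symm
        linarith
      · rcases Nat.lt_or_ge 2 s with h2 | h2
        · rcases Nat.lt_or_ge (s + 2) n with h3 | h3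
          · have h4 := tie n s g hg (by omega) (by omega) h1.symm
            have h5 := hlt (s - 1) (by omega) (by omega)
            have h6 := hmin (s + 1) (by omega)
            linarith
          · have h4 := tie3 n s g hg (by omega) (by omega) h1.symm
            have h5 := hlt (s - 1) (by omega) (by omega)
            linarith
        · have e2 : s = 2 := by omega
          subst e2
          have h4 := tie2 n g hg hn h1.symm
          have h5 := hmin 3 (by omega)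
          linarith

end Pool.Agent.Q292.Sorted
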